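import Pool.Agent.MSC.BzG

/-!
# MP_1ee37d_an: for every multiplier from `S` into `C` the series `∑ n ^ 3 lam_n z ^ n` is bounded

The known necessary conditions give only `|lam_n| ≤ 1 / n`. The proof applies the multiplier to
the Bazilevich type functions `f(z) = F(√z) ^ 2`, `F(ζ) = ξ ζ / (1 - ζ ^ 2) + (1 - ξ) artanh ζ`,
which are univalent for all complex `ξ ≠ 0` with `|ξ| ^ 2 ≤ Re ξ`.
-/

namespace Pool.Agent.Results.MP_1ee37d_an.ThirdBounded

open Pool.Agent.MSC

/-- There is an absolute constant `C` such that for every multiplier `(lam_n)` from `S` into the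
class of convex functions the function `∑ n ^ 3 lam_n z ^ n` is bounded by `C` in the unit disc. -/
theorem result : ∃ C : ℝ, ∀ lam : ℕ → ℂ, IsMult lam → ∀ z : ℂ, ‖z‖ < 1 →
    ∃ X : ℂ, HasSum (fun n : ℕ => (n : ℂ) ^ 3 * lam n * z ^ n) X ∧ ‖X‖ ≤ C :=
  third_bounded

end Pool.Agent.Results.MP_1ee37d_an.ThirdBounded
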